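import Pool.Agent.S9.U.Tri

/-!
# Project S9, block U: the recursion, abstractly

`claim`: the form of the recursion which is used both for spheres and for general manifolds.
-/

set_option autoImplicit false
set_option linter.unusedSectionVars false

namespace Pool.Agent.S9.U

/-- **Abstract data for the recursion**: the cochains `x` are functions on `S`, the cochains `a` are functions on `S'`;
`XC ρ k x`: `x` is an equivariant cochain of degree `k` with coefficients in `ρ`, and `d x` is its coboundary;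
`YC ρ a`: `a` is an equivariant cocycle (of a fixed degree) with coefficients in `ρ`; `I m T x a` is the integral of
`T (a cup_(m - 1) a) x` (zero for `m = 0`). -/
structure Sys (K : Type) [Field K] (Γ : Type) [Group Γ] where
  /-- the cells of the cochains `x` -/
  S : Type
  /-- the cells of the cochains `a` -/
  S' : Type
  /-- the equivariant cochains `x` of degree `k` -/
  XC : ∀ {E : Type} [AddCommGroup E] [Module K E], (Γ →* Module.End K E) → ℕ → (S → E) → Prop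
  /-- the coboundary -/
  d : ∀ {E : Type} [AddCommGroup E] [Module K E], (S → E) → S → E
  /-- the equivariant cocycles `a` -/
  YC : ∀ {N : Type} [AddCommGroup N] [Module K N], (Γ →* Module.End K N) → (S' → N) → Prop
  /-- the integral -/
  I : ℕ → ∀ {E N : Type} [AddCommGroup E] [Module K E] [AddCommGroup N] [Module K N],
    (N →ₗ[K] N →ₗ[K] E →ₗ[K] K) → (S → E) → (S' → N) → K
  XC_map : ∀ {E E' : Type} [AddCommGroup E] [Module K E] [AddCommGroup E'] [Module K E']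
    (ρ : Γ →* Module.End K E) (ρ' : Γ →* Module.End K E') (L : E →ₗ[K] E'),
    (∀ g e, L (ρ g e) = ρ' g (L e)) → ∀ (k : ℕ) (x : S → E), XC ρ k x →
      XC ρ' k fun s => L (x s)
  d_map : ∀ {E E' : Type} [AddCommGroup E] [Module K E] [AddCommGroup E'] [Module K E']
    (L : E →ₗ[K] E') (x : S → E) (s : S), d (fun s => L (x s)) s = L (d x s)
  YC_map : ∀ {N N' : Type} [AddCommGroup N] [Module K N] [AddCommGroup N'] [Module K N']
    (ρ : Γ →* Module.End K N) (ρ' : Γ →* Module.End K N') (L : N →ₗ[K] N'),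
    (∀ g e, L (ρ g e) = ρ' g (L e)) → ∀ a : S' → N, YC ρ a → YC ρ' fun s => L (a s)
  I_zero : ∀ {E N : Type} [AddCommGroup E] [Module K E] [AddCommGroup N] [Module K N]
    (T : N →ₗ[K] N →ₗ[K] E →ₗ[K] K) (x : S → E) (a : S' → N), I 0 T x a = 0
  I_nat : ∀ (m : ℕ) {E N E' N' : Type} [AddCommGroup E] [Module K E] [AddCommGroup N] [Module K N]
    [AddCommGroup E'] [Module K E'] [AddCommGroup N'] [Module K N']
    (T : N →ₗ[K] N →ₗ[K] E →ₗ[K] K) (x : S → E) (a : S' → N)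
    (T' : N' →ₗ[K] N' →ₗ[K] E' →ₗ[K] K) (x' : S → E') (a' : S' → N'),
    (∀ s t u, T (a s) (a t) (x u) = T' (a' s) (a' t) (x' u)) → I m T x a = I m T' x' a'
  step : ∀ (m k : ℕ) {E N : Type} [AddCommGroup E] [Module K E] [AddCommGroup N] [Module K N]
    [FiniteDimensional K E] [FiniteDimensional K N]
    (ρE : Γ →* Module.End K E) (ρN : Γ →* Module.End K N)
    (T : N →ₗ[K] N →ₗ[K] E →ₗ[K] K) (x : S → E) (a : S' → N),
    (∀ g n n' e, T (ρN g n) (ρN g n') (ρE g e) = T n n' e) → XC ρE k x → YC ρN a →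
      I (m + 1) T (d x) a = I m (T + T.flip) x a

section

variable {K : Type} [Field K] {Γ : Type} [Group Γ]

/-- **Effaceability**: every cocycle of degree `k + 1` with coefficients in a triangular module becomes a coboundary in a
larger triangular module -/
def EffA (𝒮 : Sys K Γ) (Λ : Subgroup Kˣ) : Prop :=
  ∀ (k : ℕ) (E : Type) [AddCommGroup E] [Module K E] [FiniteDimensional K E]
    (ρ : Γ →* Module.End K E), Tri Λ ρ → ∀ x : 𝒮.S → E, 𝒮.XC ρ (k + 1) x → (∀ s, 𝒮.d x s = 0) →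
    ∃ (E' : Type) (_ : AddCommGroup E') (_ : Module K E') (_ : FiniteDimensional K E')
      (ρ' : Γ →* Module.End K E') (ι : E →ₗ[K] E') (y : 𝒮.S → E'),
      Tri Λ ρ' ∧ Function.Injective ι ∧ (∀ g e, ι (ρ g e) = ρ' g (ι e)) ∧ 𝒮.XC ρ' k y ∧
        ∀ s, 𝒮.d y s = ι (x s)

/-! ### The construction -/

/-- the character `χ⁻²` -/
def im2 (χ : Γ →* Kˣ) : Γ →* Kˣ := (χ ^ 2)⁻¹

theorem im2_apply (χ : Γ →* Kˣ) (g : Γ) : im2 χ g = (χ g ^ 2)⁻¹ := rfl

theorem im2_mem (χ : Γ →* Kˣ) (g : Γ) : im2 χ g ∈ sqr χ := (sqr χ).inv_mem (sq_mem_sqr χ g)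

variable {E : Type} [AddCommGroup E] [Module K E] {E' : Type} [AddCommGroup E'] [Module K E']
  {N : Type} [AddCommGroup N] [Module K N]

private theorem inv_act {M : Type} [AddCommGroup M] [Module K M] (σ : Γ →* Module.End K M) (g : Γ)
    (y : M) : σ g⁻¹ (σ g y) = y := by
  rw [← Module.End.mul_apply, ← map_mul, inv_mul_cancel, map_one, Module.End.one_apply]

private theorem act_inv {M : Type} [AddCommGroup M] [Module K M] (σ : Γ →* Module.End K M) (g : Γ)
    (y : M) : σ g (σ g⁻¹ y) = y := by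
  rw [← Module.End.mul_apply, ← map_mul, mul_inv_cancel, map_one, Module.End.one_apply]

section Ext

variable {D : Type} [AddCommGroup D] [Module K D]

/-- the module `N₁` -/
private def N1 (ev : D →ₗ[K] N →ₗ[K] K) (ι : E →ₗ[K] E') (T : N →ₗ[K] N →ₗ[K] E →ₗ[K] K) :
    Submodule K ((E' →ₗ[K] D) × N) where
  carrier := {s | ∀ e m, ev (s.1 (ι e)) m = T m s.2 e}
  zero_mem' := fun e m => by
    show ev ((0 : E' →ₗ[K] D) (ι e)) m = T m 0 e
    rw [map_zero, LinearMap.zero_apply, map_zero]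
    rfl
  add_mem' := by
    rintro s t hs ht e m
    show ev ((s.1 + t.1) (ι e)) m = T m (s.2 + t.2) e
    rw [map_add, LinearMap.add_apply, LinearMap.add_apply, map_add, LinearMap.add_apply, hs e m,
      ht e m]
  smul_mem' := by
    rintro c s hs e m
    show ev ((c • s.1) (ι e)) m = T m (c • s.2) e
    rw [map_smul, LinearMap.smul_apply, LinearMap.smul_apply, map_smul, LinearMap.smul_apply,
      hs e m]

/-- the form `T̃` -/
private def T2 (ev : D →ₗ[K] N →ₗ[K] K) (ι : E →ₗ[K] E') (T : N →ₗ[K] N →ₗ[K] E →ₗ[K] K) :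
    N1 ev ι T →ₗ[K] N1 ev ι T →ₗ[K] E' →ₗ[K] K :=
  LinearMap.mk₂ K (fun s s' => (ev.flip s.1.2) ∘ₗ s'.1.1)
    (fun s t s' => by
      refine LinearMap.ext fun e => ?_
      show ev (s'.1.1 e) (s.1.2 + t.1.2) = ev (s'.1.1 e) s.1.2 + ev (s'.1.1 e) t.1.2
      exact map_add _ _ _)
    (fun c s s' => by
      refine LinearMap.ext fun e => ?_
      show ev (s'.1.1 e) (c • s.1.2) = c • ev (s'.1.1 e) s.1.2
      exact map_smul _ _ _)
    (fun s s' t' => by
      refine LinearMap.ext fun e => ?_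
      show ev (s'.1.1 e + t'.1.1 e) s.1.2 = ev (s'.1.1 e) s.1.2 + ev (t'.1.1 e) s.1.2
      rw [map_add, LinearMap.add_apply])
    (fun c s s' => by
      refine LinearMap.ext fun e => ?_
      show ev (c • s'.1.1 e) s.1.2 = c • ev (s'.1.1 e) s.1.2
      rw [map_smul, LinearMap.smul_apply])

private theorem ext_gen [FiniteDimensional K D] [FiniteDimensional K N] [FiniteDimensional K E']
    (χ : Γ →* Kˣ) (ρ : Γ →* Module.End K E) (ρ' : Γ →* Module.End K E')
    (ρN : Γ →* Module.End K N) (ρD : Γ →* Module.End K D)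
    (ev : D →ₗ[K] N →ₗ[K] K) (hev : ∀ g d m, ev (ρD g d) (ρN g m) = (im2 χ g : K) * ev d m)
    (lif : (N →ₗ[K] K) →ₗ[K] D) (hlif : ∀ φ, ev (lif φ) = φ)
    (ι : E →ₗ[K] E') (T : N →ₗ[K] N →ₗ[K] E →ₗ[K] K) (hinj : Function.Injective ι)
    (hι : ∀ g e, ι (ρ g e) = ρ' g (ι e))
    (hT : ∀ g n n' e, T (ρN g n) (ρN g n') (ρ g e) = (im2 χ g : K) * T n n' e)
    (h1 : Tri (sqr χ) ρ') (h2 : Tri (sqr χ) ρN) (h3 : Tri (sqr χ) ρD) :
    ∃ (N₁ : Type) (_ : AddCommGroup N₁) (_ : Module K N₁) (_ : FiniteDimensional K N₁)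
      (ρ₁ : Γ →* Module.End K N₁) (p : N₁ →ₗ[K] N) (T' : N₁ →ₗ[K] N₁ →ₗ[K] E' →ₗ[K] K),
      Tri (sqr χ) ρ₁ ∧ Function.Surjective p ∧ (∀ g y, p (ρ₁ g y) = ρN g (p y)) ∧
      (∀ s s' e, T' s s' (ι e) = T (p s) (p s') e) ∧
      ∀ g s s' e, T' (ρ₁ g s) (ρ₁ g s') (ρ' g e) = (im2 χ g : K) * T' s s' e := by
  have hinv : ∀ g, ∀ s ∈ N1 ev ι T, prodR (homR ρ' ρD) ρN g s ∈ N1 ev ι T := by
    intro g s hs e m
    show ev (ρD g (s.1 (ρ' g⁻¹ (ι e)))) m = T m (ρN g s.2) e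
    have h4 : ev (ρD g (s.1 (ρ' g⁻¹ (ι e)))) m =
        (im2 χ g : K) * ev (s.1 (ρ' g⁻¹ (ι e))) (ρN g⁻¹ m) := by
      rw [← hev, act_inv]
    rw [h4, ← hι, hs, ← hT, act_inv, act_inv]
  refine ⟨N1 ev ι T, inferInstance, inferInstance, inferInstance,
    subR (prodR (homR ρ' ρD) ρN) (N1 ev ι T) hinv, LinearMap.snd K _ N ∘ₗ (N1 ev ι T).subtype,
    T2 ev ι T, Tri.sub (Tri.prod (Tri.hom h1 h3) h2) _ _, ?_, fun g y => rfl, ?_, ?_⟩
  · intro n
    obtain ⟨κ, hκ⟩ := LinearMap.exists_leftInverse_of_injective ι (LinearMap.ker_eq_bot.2 hinj)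
    refine ⟨⟨(lif ∘ₗ (T.flip n).flip ∘ₗ κ, n), fun e m => ?_⟩, rfl⟩
    show ev (lif ((T.flip n).flip (κ (ι e)))) m = T m n e
    rw [hlif, ← LinearMap.comp_apply κ ι, hκ, LinearMap.id_apply]
    rfl
  · intro s s' e
    exact s'.2 e s.1.2
  · intro g s s' e
    show ev (ρD g (s'.1.1 (ρ' g⁻¹ (ρ' g e)))) (ρN g s.1.2) = (im2 χ g : K) * ev (s'.1.1 e) s.1.2
    rw [hev, inv_act]

end Ext

/-- **The extension step.** -/
theorem ext_step [FiniteDimensional K N] [FiniteDimensional K E']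
    (χ : Γ →* Kˣ) (ρ : Γ →* Module.End K E) (ρ' : Γ →* Module.End K E')
    (ρN : Γ →* Module.End K N)
    (ι : E →ₗ[K] E') (T : N →ₗ[K] N →ₗ[K] E →ₗ[K] K) (hinj : Function.Injective ι)
    (hι : ∀ g e, ι (ρ g e) = ρ' g (ι e))
    (hT : ∀ g n n' e, T (ρN g n) (ρN g n') (ρ g e) = (im2 χ g : K) * T n n' e)
    (h1 : Tri (sqr χ) ρ') (h2 : Tri (sqr χ) ρN) :
    ∃ (N₁ : Type) (_ : AddCommGroup N₁) (_ : Module K N₁) (_ : FiniteDimensional K N₁)
      (ρ₁ : Γ →* Module.End K N₁) (p : N₁ →ₗ[K] N) (T' : N₁ →ₗ[K] N₁ →ₗ[K] E' →ₗ[K] K),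
      Tri (sqr χ) ρ₁ ∧ Function.Surjective p ∧ (∀ g y, p (ρ₁ g y) = ρN g (p y)) ∧
      (∀ s s' e, T' s s' (ι e) = T (p s) (p s') e) ∧
      ∀ g s s' e, T' (ρ₁ g s) (ρ₁ g s') (ρ' g e) = (im2 χ g : K) * T' s s' e := by
  refine ext_gen χ ρ ρ' ρN (homR ρN (ch (im2 χ))) LinearMap.id (fun g d m => ?_) LinearMap.id
    (fun φ => rfl) ι T hinj hι hT h1 h2 (Tri.hom h2 (tri_ch (im2_mem χ)))
  show (im2 χ g : K) * d (ρN g⁻¹ (ρN g m)) = (im2 χ g : K) * d m
  rw [inv_act]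

/-- **The form on the quotient.** -/
theorem quo_form [CharP K 2] (ι : E →ₗ[K] E') (T : N →ₗ[K] N →ₗ[K] E' →ₗ[K] K)
    (hT : ∀ n n' e, T n n' (ι e) = T n' n (ι e)) :
    ∃ T' : N →ₗ[K] N →ₗ[K] (E' ⧸ LinearMap.range ι) →ₗ[K] K,
      ∀ n n' e, T' n n' ((LinearMap.range ι).mkQ e) = T n n' e + T n' n e := by
  have hv : ∀ n n', LinearMap.range ι ≤ LinearMap.ker (T n n' + T n' n) := by
    rintro n n' _ ⟨e, rfl⟩
    rw [LinearMap.mem_ker, LinearMap.add_apply, hT n n' e]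
    exact CharTwo.add_self_eq_zero _
  refine ⟨LinearMap.mk₂ K (fun n n' => (LinearMap.range ι).liftQ (T n n' + T n' n) (hv n n'))
    (fun s t s' => ?_) (fun c s s' => ?_) (fun s s' t' => ?_) (fun c s s' => ?_),
    fun n n' e => rfl⟩
  · refine Submodule.linearMap_qext _ (LinearMap.ext fun e => ?_)
    show T (s + t) s' e + T s' (s + t) e = (T s s' e + T s' s e) + (T t s' e + T s' t e)
    rw [map_add, map_add]
    simp only [LinearMap.add_apply]
    ring
  · refine Submodule.linearMap_qext _ (LinearMap.ext fun e => ?_)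
    show T (c • s) s' e + T s' (c • s) e = c • (T s s' e + T s' s e)
    rw [map_smul, map_smul, LinearMap.smul_apply, LinearMap.smul_apply, LinearMap.smul_apply,
      smul_add]
  · refine Submodule.linearMap_qext _ (LinearMap.ext fun e => ?_)
    show T s (s' + t') e + T (s' + t') s e = (T s s' e + T s' s e) + (T s t' e + T t' s e)
    rw [map_add, map_add]
    simp only [LinearMap.add_apply]
    ring
  · refine Submodule.linearMap_qext _ (LinearMap.ext fun e => ?_)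
    show T s (c • s') e + T (c • s') s e = c • (T s s' e + T s' s e)
    rw [map_smul, map_smul, LinearMap.smul_apply, LinearMap.smul_apply, LinearMap.smul_apply,
      smul_add]

/-- **The recursion.** -/
theorem claim [CharP K 2] (𝒮 : Sys K Γ) {χ : Γ →* Kˣ} (hE : EffA 𝒮 (sqr χ)) (m : ℕ) :
    ∀ k : ℕ, m ≤ k → ∀ (E N : Type) [AddCommGroup E] [Module K E] [FiniteDimensional K E]
    [AddCommGroup N] [Module K N] [FiniteDimensional K N]
    (ρE : Γ →* Module.End K E) (ρN : Γ →* Module.End K N), Tri (sqr χ) ρE → Tri (sqr χ) ρN →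
    ∀ T : N →ₗ[K] N →ₗ[K] E →ₗ[K] K, (∀ n n', T n n' = T n' n) →
    (∀ g n n' e, T (ρN g n) (ρN g n') (ρE g e) = (im2 χ g : K) * T n n' e) →
    ∀ x : 𝒮.S → E, 𝒮.XC ρE k x → (∀ s, 𝒮.d x s = 0) →
    ∃ (N' : Type) (_ : AddCommGroup N') (_ : Module K N') (_ : FiniteDimensional K N')
      (ρ' : Γ →* Module.End K N') (p : N' →ₗ[K] N), Tri (sqr χ) ρ' ∧ Function.Surjective p ∧
      (∀ g y, p (ρ' g y) = ρN g (p y)) ∧
      ∀ a : 𝒮.S' → N', 𝒮.YC (tw χ ρ') a → 𝒮.I m T x (fun s => p (a s)) = 0 := by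
  induction m with
  | zero =>
    intro k _ E N _ _ _ _ _ _ ρE ρN h1 h2 T hT hg x hx hd
    exact ⟨N, inferInstance, inferInstance, inferInstance, ρN, LinearMap.id, h2,
      Function.surjective_id, fun _ _ => rfl, fun a _ => 𝒮.I_zero _ _ _⟩
  | succ m ih =>
    intro k hk E N _ _ _ _ _ _ ρE ρN h1 h2 T hT hg x hx hd
    obtain ⟨k, rfl⟩ : ∃ k', k = k' + 1 := ⟨k - 1, by omega⟩
    obtain ⟨E', _, _, _, ρ', ι, y, h3, hι, hιg, hy, hyx⟩ := hE k E ρE h1 x hx hd
    obtain ⟨N₁, _, _, _, ρ₁, p₁, T2, q1, q2, q3, q4, q5⟩ :=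
      ext_step χ ρE ρ' ρN ι T hι hιg hg h3 h2
    obtain ⟨T3, hT3⟩ := quo_form ι T2 fun n n' e => by rw [q4, q4, hT]
    have hR : ∀ g, ∀ e ∈ LinearMap.range ι, ρ' g e ∈ LinearMap.range ι := by
      rintro g _ ⟨e, rfl⟩
      exact ⟨ρE g e, hιg g e⟩
    obtain ⟨N', _, _, _, ρN', p, h4, h5, h6, h7⟩ := ih k (by omega) (E' ⧸ LinearMap.range ι)
      N₁ (quoR ρ' (LinearMap.range ι) hR) ρ₁ (Tri.quo h3 _ hR) q1 T3
      (fun n n' => Submodule.linearMap_qext _ (LinearMap.ext fun e => by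
        show T3 n n' ((LinearMap.range ι).mkQ e) = T3 n' n ((LinearMap.range ι).mkQ e)
        rw [hT3, hT3, add_comm]))
      (by
        intro g s s' e
        obtain ⟨e, rfl⟩ := (LinearMap.range ι).mkQ_surjective e
        rw [quoR_mkQ, hT3, hT3, q5, q5, mul_add])
      (fun s => (LinearMap.range ι).mkQ (y s))
      (𝒮.XC_map ρ' _ (LinearMap.range ι).mkQ (fun _ _ => rfl) k y hy) (by
        intro s
        rw [𝒮.d_map, hyx]
        exact (Submodule.Quotient.mk_eq_zero _).2 ⟨x s, rfl⟩)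
    refine ⟨N', inferInstance, inferInstance, inferInstance, ρN', p₁ ∘ₗ p, h4, q2.comp h5, ?_, ?_⟩
    · intro g y
      show p₁ (p (ρN' g y)) = ρN g (p₁ (p y))
      rw [h6, q3]
    · intro a ha
      have hb : 𝒮.YC (tw χ ρ₁) fun s => p (a s) := by
        refine 𝒮.YC_map (tw χ ρN') _ p (fun g e => ?_) a ha
        show p ((χ g : K) • ρN' g e) = (χ g : K) • _
        rw [map_smul, h6]
      show 𝒮.I (m + 1) T x (fun s => p₁ (p (a s))) = 0
      rw [𝒮.I_nat (m + 1) T x (fun s => p₁ (p (a s))) T2 (fun s => ι (x s))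
        (fun s => p (a s)) fun s t u => (q4 _ _ _).symm]
      have h8 : (fun s => ι (x s)) = 𝒮.d y := funext fun s => (hyx s).symm
      rw [h8, 𝒮.step m k ρ' (tw χ ρ₁) T2 y (fun s => p (a s)) ?_ hy hb, ← h7 a ha]
      · refine 𝒮.I_nat m _ _ _ _ _ _ fun s t u => ?_
        rw [hT3]
        rfl
      · intro g s s' e
        show T2 ((χ g : K) • _) ((χ g : K) • _) _ = _
        rw [map_smul, map_smul, LinearMap.smul_apply, LinearMap.smul_apply, LinearMap.smul_apply,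
          q5, im2_apply, smul_smul, smul_eq_mul, ← mul_assoc, Units.val_inv_eq_inv_val,
          Units.val_pow_eq_pow_val, pow_two, mul_inv_cancel₀, one_mul]
        exact mul_ne_zero (χ g).ne_zero (χ g).ne_zero

end

end Pool.Agent.S9.U
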