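import Pool.Agent.H19.SR.Cup

/-!
# Project S9, block U: cubical cup products of module valued local cochains

As in `Pool/Agent/H19/SR/Defs.lean`: `x B C` is the value of the cochain `x` on the face with the free letters `B` on
which the letters in `C` are `1` and all other letters are `0`. The values are in vector spaces over the field `K` of
characteristic two, `b` is a bilinear map. By coordinates everything follows from the scalar case (`SR/Cup.lean`).
-/

set_option autoImplicit false
set_option linter.unusedSectionVars false

open Finset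

namespace Pool.Agent.S9.U

open Pool.Agent.H19.SR (cob cupc bel Face cob_cupc cob_cupc_zero)

variable {V : Type} [DecidableEq V]

/-- the coboundary -/
def cobm {M : Type} [AddCommMonoid M] (x : Finset V → Finset V → M) (B C : Finset V) : M :=
  ∑ v ∈ B, (x (B.erase v) C + x (B.erase v) (insert v C))

section

variable {K A A' M : Type} [Field K] [AddCommGroup A] [Module K A] [AddCommGroup A'] [Module K A']
  [AddCommGroup M] [Module K M]

/-- the cup product of order `m` with values in `M` -/
def cupb (b : A →ₗ[K] A' →ₗ[K] M) (ν : V → ℕ) (m : ℕ) (x : Finset V → Finset V → A)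
    (y : Finset V → Finset V → A') (B C : Finset V) : M :=
  ∑ N ∈ B.powersetCard m, ∑ D ∈ (B \ N).powerset,
    b (x (N ∪ D) (C ∪ ((B \ (N ∪ D)).filter fun v => ¬ Even (bel ν N v))))
      (y (B \ D) (C ∪ D.filter fun v => Even (bel ν N v)))

/-- the cup product of order `m - 1` -/
def cupsb (b : A →ₗ[K] A' →ₗ[K] M) (ν : V → ℕ) : ℕ → (Finset V → Finset V → A) →
    (Finset V → Finset V → A') → Finset V → Finset V → M
  | 0 => fun _ _ _ _ => 0
  | m + 1 => cupb b ν m

theorem cupb_map {M' : Type} [AddCommGroup M'] [Module K M'] (L : M →ₗ[K] M')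
    (b : A →ₗ[K] A' →ₗ[K] M) (ν : V → ℕ) (m : ℕ) (x : Finset V → Finset V → A)
    (y : Finset V → Finset V → A') (B C : Finset V) :
    L (cupb b ν m x y B C) = cupb (b.compr₂ L) ν m x y B C := by
  unfold cupb
  rw [map_sum]
  refine sum_congr rfl fun N _ => ?_
  rw [map_sum]
  rfl

theorem cobm_map {M' : Type} [AddCommGroup M'] [Module K M'] (L : M →ₗ[K] M')
    (x : Finset V → Finset V → M) (B C : Finset V) :
    L (cobm x B C) = cobm (fun B C => L (x B C)) B C := by
  unfold cobm
  rw [map_sum]
  exact sum_congr rfl fun v _ => map_add _ _ _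

/-- the coordinates -/
theorem cupb_coord [FiniteDimensional K A] [FiniteDimensional K A'] (b : A →ₗ[K] A' →ₗ[K] M)
    (ν : V → ℕ) (m : ℕ) (x : Finset V → Finset V → A) (y : Finset V → Finset V → A')
    (B C : Finset V) :
    cupb b ν m x y B C = ∑ p, ∑ r, cupc ν m
      (fun B C => (Module.finBasis K A).repr (x B C) p)
      (fun B C => (Module.finBasis K A').repr (y B C) r) B C •
        b (Module.finBasis K A p) (Module.finBasis K A' r) := by
  have hb : ∀ (u : A) (w : A'), b u w = ∑ p, ∑ r, ((Module.finBasis K A).repr u p *
      (Module.finBasis K A').repr w r) • b (Module.finBasis K A p) (Module.finBasis K A' r) := by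
    intro u w
    conv_lhs => rw [← (Module.finBasis K A).sum_repr u, ← (Module.finBasis K A').sum_repr w]
    simp only [map_sum, LinearMap.sum_apply, map_smul, LinearMap.smul_apply, smul_sum, smul_smul]
    rw [sum_comm]
    exact sum_congr rfl fun p _ => sum_congr rfl fun r _ => by rw [mul_comm]
  unfold cupb cupc
  rw [sum_congr rfl fun N _ => sum_congr rfl fun D _ => hb _ _]
  simp only [sum_smul]
  rw [sum_congr rfl fun N _ => sum_comm]
  rw [sum_comm]
  refine sum_congr rfl fun p _ => ?_
  rw [sum_congr rfl fun N _ => sum_comm]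
  rw [sum_comm]

theorem cob_eq_cobm {R : Type} [CommRing R] (x : Finset V → Finset V → R) (B C : Finset V) :
    cob x B C = cobm x B C := rfl

variable [CharP K 2]

/-- **The coboundary of the cup product of order `m + 1`.** -/
theorem cobm_cupb_succ [FiniteDimensional K A] [FiniteDimensional K A'] (b : A →ₗ[K] A' →ₗ[K] M)
    {ν : V → ℕ} (hν : Function.Injective ν) (m : ℕ) (x : Finset V → Finset V → A)
    (y : Finset V → Finset V → A') (B C : Finset V) :
    cobm (cupb b ν (m + 1) x y) B C = cupb b ν (m + 1) (cobm x) y B C +
      cupb b ν (m + 1) x (cobm y) B C + (cupb b ν m x y B C + cupb b.flip ν m y x B C) := by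
  have h1 : cobm (cupb b ν (m + 1) x y) B C = ∑ p, ∑ r, cob (cupc ν (m + 1)
      (fun B C => (Module.finBasis K A).repr (x B C) p)
      (fun B C => (Module.finBasis K A').repr (y B C) r)) B C •
        b (Module.finBasis K A p) (Module.finBasis K A' r) := by
    unfold cobm cob
    simp only [cupb_coord b ν (m + 1) x y, ← sum_add_distrib, ← add_smul]
    rw [sum_comm]
    refine sum_congr rfl fun p _ => ?_
    rw [sum_comm]
    exact sum_congr rfl fun r _ => (sum_smul ..).symm
  have hx : ∀ p, (cob fun B C => (Module.finBasis K A).repr (x B C) p) =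
      fun B C => (Module.finBasis K A).repr (cobm x B C) p := by
    intro p
    funext B C
    unfold cob cobm
    rw [map_sum, Finsupp.finsetSum_apply]
    exact sum_congr rfl fun v _ => by rw [map_add, Finsupp.add_apply]
  have hy : ∀ r, (cob fun B C => (Module.finBasis K A').repr (y B C) r) =
      fun B C => (Module.finBasis K A').repr (cobm y B C) r := by
    intro p
    funext B C
    unfold cob cobm
    rw [map_sum, Finsupp.finsetSum_apply]
    exact sum_congr rfl fun v _ => by rw [map_add, Finsupp.add_apply]
  have h2 : cupb b.flip ν m y x B C = ∑ p, ∑ r, cupc ν m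
      (fun B C => (Module.finBasis K A').repr (y B C) r)
      (fun B C => (Module.finBasis K A).repr (x B C) p) B C •
        b (Module.finBasis K A p) (Module.finBasis K A' r) := by
    rw [cupb_coord b.flip ν m y x, sum_comm]
    rfl
  rw [h1, h2, cupb_coord b ν (m + 1) (cobm x) y, cupb_coord b ν (m + 1) x (cobm y),
    cupb_coord b ν m x y]
  simp only [← sum_add_distrib, ← add_smul]
  refine sum_congr rfl fun p _ => sum_congr rfl fun r _ => ?_
  rw [cob_cupc ν hν, hx, hy]

/-- **The coboundary of the cup product of order `0`.** -/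
theorem cobm_cupb_zero [FiniteDimensional K A] [FiniteDimensional K A'] (b : A →ₗ[K] A' →ₗ[K] M)
    (ν : V → ℕ) (x : Finset V → Finset V → A)
    (y : Finset V → Finset V → A') (B C : Finset V) :
    cobm (cupb b ν 0 x y) B C = cupb b ν 0 (cobm x) y B C + cupb b ν 0 x (cobm y) B C := by
  have h1 : cobm (cupb b ν 0 x y) B C = ∑ p, ∑ r, cob (cupc ν 0
      (fun B C => (Module.finBasis K A).repr (x B C) p)
      (fun B C => (Module.finBasis K A').repr (y B C) r)) B C •
        b (Module.finBasis K A p) (Module.finBasis K A' r) := by
    unfold cobm cob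
    simp only [cupb_coord b ν 0 x y, ← sum_add_distrib, ← add_smul]
    rw [sum_comm]
    refine sum_congr rfl fun p _ => ?_
    rw [sum_comm]
    exact sum_congr rfl fun r _ => (sum_smul ..).symm
  have hx : ∀ p, (cob fun B C => (Module.finBasis K A).repr (x B C) p) =
      fun B C => (Module.finBasis K A).repr (cobm x B C) p := by
    intro p
    funext B C
    unfold cob cobm
    rw [map_sum, Finsupp.finsetSum_apply]
    exact sum_congr rfl fun v _ => by rw [map_add, Finsupp.add_apply]
  have hy : ∀ r, (cob fun B C => (Module.finBasis K A').repr (y B C) r) =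
      fun B C => (Module.finBasis K A').repr (cobm y B C) r := by
    intro p
    funext B C
    unfold cob cobm
    rw [map_sum, Finsupp.finsetSum_apply]
    exact sum_congr rfl fun v _ => by rw [map_add, Finsupp.add_apply]
  rw [h1, cupb_coord b ν 0 (cobm x) y, cupb_coord b ν 0 x (cobm y)]
  simp only [← sum_add_distrib, ← add_smul]
  refine sum_congr rfl fun p _ => sum_congr rfl fun r _ => ?_
  rw [cob_cupc_zero ν, hx, hy]

end

end Pool.Agent.S9.U
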