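import Pool.Agent.S9.Defs
import Pool.Agent.S9.U.Cupb

/-!
# Project S9, block U: the cochains on the cubes
-/

set_option autoImplicit false
set_option linter.unusedSectionVars false

open Finset

namespace Pool.Agent.S9.U

open Pool.Agent.H73.GC

open Pool.Agent.H19.SR (cob cupc bel Face gp)

section Face

variable {V : Type} [DecidableEq V] {K A A' M : Type} [Field K] [AddCommGroup A] [Module K A]
  [AddCommGroup A'] [Module K A'] [AddCommGroup M] [Module K M]

theorem cupb_face (b : A →ₗ[K] A' →ₗ[K] M) (ν : V → ℕ) (m : ℕ) {Q : Finset V}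
    {x x' : Finset V → Finset V → A} {y y' : Finset V → Finset V → A'}
    (hx : ∀ B C, Face Q B C → x B C = x' B C) (hy : ∀ B C, Face Q B C → y B C = y' B C)
    (B C : Finset V) (h : Face Q B C) : cupb b ν m x y B C = cupb b ν m x' y' B C := by
  unfold cupb
  refine sum_congr rfl fun N hN => sum_congr rfl fun D hD => ?_
  have hN1 := (mem_powersetCard.1 hN).1
  have hD1 := mem_powerset.1 hD
  obtain ⟨h1, h2⟩ := h
  have hB : B ⊆ Q := subset_union_left.trans h2
  have hC : C ⊆ Q := subset_union_right.trans h2
  have hDB : D ⊆ B := hD1.trans sdiff_subset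
  rw [hx, hy]
  · refine ⟨?_, ?_⟩
    · refine disjoint_union_right.2 ⟨h1.mono_left sdiff_subset, ?_⟩
      exact disjoint_sdiff_self_left.mono_right (filter_subset _ _)
    · exact union_subset (sdiff_subset.trans hB) (union_subset hC
        ((filter_subset _ _).trans (hDB.trans hB)))
  · refine ⟨?_, ?_⟩
    · refine disjoint_union_right.2 ⟨h1.mono_left (union_subset hN1 hDB), ?_⟩
      exact disjoint_sdiff_self_right.mono_right (filter_subset _ _)
    · exact union_subset ((union_subset hN1 hDB).trans hB) (union_subset hC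
        ((filter_subset _ _).trans (sdiff_subset.trans hB)))

theorem cupsb_face (b : A →ₗ[K] A' →ₗ[K] M) (ν : V → ℕ) (m : ℕ) {Q : Finset V}
    {x x' : Finset V → Finset V → A} {y y' : Finset V → Finset V → A'}
    (hx : ∀ B C, Face Q B C → x B C = x' B C) (hy : ∀ B C, Face Q B C → y B C = y' B C)
    (B C : Finset V) (h : Face Q B C) : cupsb b ν m x y B C = cupsb b ν m x' y' B C := by
  cases m with
  | zero => rfl
  | succ m => exact cupb_face b ν m hx hy B C h

theorem cupb_shift (b : A →ₗ[K] A' →ₗ[K] M) (ν : V → ℕ) (m : ℕ) (v : V)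
    (x : Finset V → Finset V → A) (y : Finset V → Finset V → A') (B C : Finset V) :
    cupb b ν m (fun B C => x B (insert v C)) (fun B C => y B (insert v C)) B C =
      cupb b ν m x y B (insert v C) := by
  unfold cupb
  refine sum_congr rfl fun N _ => sum_congr rfl fun D _ => ?_
  rw [insert_union, insert_union]

theorem cupsb_shift (b : A →ₗ[K] A' →ₗ[K] M) (ν : V → ℕ) (m : ℕ) (v : V)
    (x : Finset V → Finset V → A) (y : Finset V → Finset V → A') (B C : Finset V) :
    cupsb b ν m (fun B C => x B (insert v C)) (fun B C => y B (insert v C)) B C =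
      cupsb b ν m x y B (insert v C) := by
  cases m with
  | zero => rfl
  | succ m => exact cupb_shift b ν m v x y B C

theorem cupb_zero_left (b : A →ₗ[K] A' →ₗ[K] M) (ν : V → ℕ) (m : ℕ)
    (y : Finset V → Finset V → A') (B C : Finset V) : cupb b ν m (fun _ _ => 0) y B C = 0 := by
  unfold cupb
  refine sum_eq_zero fun N _ => sum_eq_zero fun D _ => ?_
  rw [map_zero, LinearMap.zero_apply]

theorem cupb_zero_right (b : A →ₗ[K] A' →ₗ[K] M) (ν : V → ℕ) (m : ℕ)
    (x : Finset V → Finset V → A) (B C : Finset V) : cupb b ν m x (fun _ _ => 0) B C = 0 := by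
  unfold cupb
  refine sum_eq_zero fun N _ => sum_eq_zero fun D _ => ?_
  rw [map_zero]

theorem cupb_add_form (b b' : A →ₗ[K] A' →ₗ[K] M) (ν : V → ℕ) (m : ℕ)
    (x : Finset V → Finset V → A) (y : Finset V → Finset V → A') (B C : Finset V) :
    cupb (b + b') ν m x y B C = cupb b ν m x y B C + cupb b' ν m x y B C := by
  unfold cupb
  simp only [LinearMap.add_apply, sum_add_distrib]

theorem cupsb_add_form (b b' : A →ₗ[K] A' →ₗ[K] M) (ν : V → ℕ) (m : ℕ)
    (x : Finset V → Finset V → A) (y : Finset V → Finset V → A') (B C : Finset V) :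
    cupsb (b + b') ν m x y B C = cupsb b ν m x y B C + cupsb b' ν m x y B C := by
  cases m with
  | zero => exact (add_zero _).symm
  | succ m => exact cupb_add_form b b' ν m x y B C

/-- the coboundary of `a cup a` for a cocycle `a` -/
theorem cobm_cupsb_self [CharP K 2] [FiniteDimensional K A] (b : A →ₗ[K] A →ₗ[K] M)
    {ν : V → ℕ} (hν : Function.Injective ν) (m : ℕ) {Q : Finset V}
    {a : Finset V → Finset V → A} (ha : ∀ B C, Face Q B C → cobm a B C = 0)
    (B C : Finset V) (h : Face Q B C) :
    cobm (cupsb b ν (m + 1) a a) B C = cupsb (b + b.flip) ν m a a B C := by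
  have h1 : cupb b ν m (cobm a) a B C = 0 := by
    rw [cupb_face b ν m (x' := fun _ _ => 0) ha (fun _ _ _ => rfl) B C h, cupb_zero_left]
  have h2 : cupb b ν m a (cobm a) B C = 0 := by
    rw [cupb_face b ν m (y' := fun _ _ => 0) (fun _ _ _ => rfl) ha B C h, cupb_zero_right]
  rw [cupsb_add_form]
  cases m with
  | zero =>
    show cobm (cupb b ν 0 a a) B C = 0 + 0
    rw [cobm_cupb_zero, h1, h2]
  | succ m =>
    show cobm (cupb b ν (m + 1) a a) B C = cupb b ν m a a B C + cupb b.flip ν m a a B C
    rw [cobm_cupb_succ b hν, h1, h2, zero_add, zero_add]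

end Face

/-! ### The cochains on the cube at `w` -/

section Loc

variable {V : Type} [DecidableEq V] [Fintype V] {G : SimpleGraph V} {W : Type} [Group W]
  (R : Rac G W)

private theorem clique_sub {A B : Finset V} (h : G.IsClique (A : Set V)) (hB : B ⊆ A) :
    G.IsClique (B : Set V) := h.subset (by exact_mod_cast hB)

private theorem list_insert {C : Finset V} {v : V} (hv : v ∉ C)
    (hC : G.IsClique ((insert v C : Finset V) : Set V)) : ∀ L : List V, L.Nodup →
      ((L.filter fun u => u ∈ insert v C).map R.s).prod =
        ((L.filter fun u => u ∈ C).map R.s).prod * if v ∈ L then R.s v else 1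
  | [], _ => by simp
  | x :: L, hL => by
    have hx : x ∉ L := (List.nodup_cons.1 hL).1
    have ih := list_insert hv hC L (List.nodup_cons.1 hL).2
    by_cases hxv : x = v
    · subst hxv
      rw [List.filter_cons_of_pos (by simp), List.filter_cons_of_neg (by simpa using hv)]
      rw [List.map_cons, List.prod_cons, ih, if_neg hx, mul_one, if_pos (List.mem_cons_self)]
      have h3 : Commute (R.s x) ((L.filter fun u => u ∈ C).map R.s).prod := by
        refine Commute.list_prod_right _ _ fun y hy => ?_
        obtain ⟨u, hu, rfl⟩ := List.mem_map.1 hy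
        have hu' : u ∈ C := by simpa using (List.mem_filter.1 hu).2
        have hux : x ≠ u := fun h => hv (h ▸ hu')
        refine R.comm x u (hC ?_ ?_ hux)
        · simp
        · simp [hu']
      exact h3
    · have h4 : (v ∈ x :: L) ↔ v ∈ L := by
        rw [List.mem_cons]
        constructor
        · rintro (h | h)
          · exact absurd h.symm hxv
          · exact h
        · exact Or.inr
      have h5 : (if v ∈ x :: L then R.s v else 1) = if v ∈ L then R.s v else 1 := by
        by_cases h : v ∈ L
        · rw [if_pos h, if_pos (h4.2 h)]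
        · rw [if_neg h, if_neg (fun h' => h (h4.1 h'))]
      rw [h5]
      by_cases hxC : x ∈ C
      · rw [List.filter_cons_of_pos (by simp [hxC]), List.filter_cons_of_pos (by simpa using hxC),
          List.map_cons, List.prod_cons, List.map_cons, List.prod_cons, ih, mul_assoc]
      · rw [List.filter_cons_of_neg (by simp [hxC, hxv]), List.filter_cons_of_neg
          (by simpa using hxC), ih]

theorem gp_ins {C : Finset V} {v : V} (hv : v ∉ C)
    (hC : G.IsClique ((insert v C : Finset V) : Set V)) :
    gp R.s (insert v C) = gp R.s C * R.s v := by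
  have h := list_insert R hv hC (univ : Finset V).toList (Finset.nodup_toList _)
  rw [if_pos (Finset.mem_toList.2 (mem_univ v))] at h
  exact h

theorem gp_com {C : Finset V} {v : V} (hC : G.IsClique ((insert v C : Finset V) : Set V)) :
    gp R.s C * R.s v = R.s v * gp R.s C := by
  have h3 : Commute (R.s v) (gp R.s C) := by
    refine Commute.list_prod_right _ _ fun y hy => ?_
    obtain ⟨u, hu, rfl⟩ := List.mem_map.1 hy
    have hu' : u ∈ C := by simpa using (List.mem_filter.1 hu).2
    by_cases hux : v = u
    · rw [hux]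
    · refine R.comm v u (hC ?_ ?_ hux)
      · simp
      · simp [hu']
  exact h3.eq.symm

theorem gp_emp : gp R.s ∅ = 1 := by
  simp [gp]

/-- the cochain `c` on the cube at `w` -/
noncomputable def loc {N : Type} (c : Finset V → W → N) (w : W) (B C : Finset V) : N :=
  c B (w * gp R.s C)

theorem loc_shift {N : Type} (c : Finset V → W → N) {Q : Finset V}
    (hQ : G.IsClique (Q : Set V)) {v : V} (hv : v ∈ Q) (w : W) (B C : Finset V)
    (h : Face (Q.erase v) B C) : loc R c (w * R.s v) B C = loc R c w B (insert v C) := by
  have hC : C ⊆ Q.erase v := subset_union_right.trans h.2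
  have hvC : v ∉ C := fun h' => notMem_erase v Q (hC h')
  have h1 : G.IsClique ((insert v C : Finset V) : Set V) :=
    clique_sub hQ (insert_subset hv (hC.trans (erase_subset _ _)))
  unfold loc
  rw [gp_ins R hvC h1, gp_com R h1, mul_assoc]

theorem cobm_loc {N : Type} [AddCommGroup N] (c : Finset V → W → N) {Q : Finset V}
    (hQ : G.IsClique (Q : Set V)) (w : W) (B C : Finset V) (h : Face Q B C) :
    cobm (loc R c w) B C = loc R (cb R c) w B C := by
  have hB : B ⊆ Q := subset_union_left.trans h.2
  have hC : C ⊆ Q := subset_union_right.trans h.2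
  unfold cobm loc cb
  rw [if_pos (clique_sub hQ hB)]
  refine sum_congr rfl fun v hv => ?_
  have hvC : v ∉ C := fun h' => disjoint_left.1 h.1 hv h'
  rw [gp_ins R hvC (clique_sub hQ (insert_subset (hB hv) hC)), mul_assoc]

end Loc

end Pool.Agent.S9.U
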