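import Pool.Agent.S9.F.Tr
import Pool.Agent.S9.U.Loc
import Pool.Agent.S9.U.Claim

/-!
# Project S9, block U: the unstable relation for spheres
-/

set_option autoImplicit false
set_option linter.unusedSectionVars false

open Finset

namespace Pool.Agent.S9.U

open Pool.Agent.H73.GC

open Pool.Agent.H19.SR (cob cupc bel Face gp IsSph)

variable {V : Type} [DecidableEq V] [Fintype V] {G : SimpleGraph V} {W : Type} [Group W]
  (R : Rac G W) {K : Type} [Field K]

section Den

variable {E : Type} [AddCommGroup E] [Module K E] {N : Type} [AddCommGroup N] [Module K N]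

/-- the evaluation -/
def fl (K E : Type) [Field K] [AddCommGroup E] [Module K E] : E →ₗ[K] (E →ₗ[K] K) →ₗ[K] K :=
  (LinearMap.id : (E →ₗ[K] K) →ₗ[K] E →ₗ[K] K).flip

theorem fl_apply (e : E) (f : E →ₗ[K] K) : fl K E e f = f e := rfl

/-- the density `x cup T(a cup_(m - 1) a)` on one cube -/
def dl (ν : V → ℕ) (m : ℕ) (T : N →ₗ[K] N →ₗ[K] E →ₗ[K] K) (x : Finset V → Finset V → E)
    (a : Finset V → Finset V → N) : Finset V → Finset V → K :=
  cupb (fl K E) ν 0 x (cupsb T ν m a a)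

/-- the density on all cubes -/
noncomputable def den (ν : V → ℕ) (m : ℕ) (T : N →ₗ[K] N →ₗ[K] E →ₗ[K] K) (x : Finset V → W → E)
    (a : Finset V → W → N) (A : Finset V) (w : W) : K :=
  dl ν m T (loc R x w) (loc R a w) A ∅

theorem dl_nat {E' : Type} [AddCommGroup E'] [Module K E'] {N' : Type} [AddCommGroup N']
    [Module K N'] (ν : V → ℕ) (m : ℕ) (T : N →ₗ[K] N →ₗ[K] E →ₗ[K] K)
    (T' : N' →ₗ[K] N' →ₗ[K] E' →ₗ[K] K) {x : Finset V → Finset V → E}
    {a : Finset V → Finset V → N} {x' : Finset V → Finset V → E'} {a' : Finset V → Finset V → N'}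
    (h : ∀ B C B' C' D D', T (a B C) (a B' C') (x D D') = T' (a' B C) (a' B' C') (x' D D'))
    (B C : Finset V) : dl ν m T x a B C = dl ν m T' x' a' B C := by
  have h1 : ∀ B C D D', cupsb T ν m a a B C (x D D') = cupsb T' ν m a' a' B C (x' D D') := by
    intro B C D D'
    cases m with
    | zero => rfl
    | succ m =>
      show cupb T ν m a a B C (x D D') = cupb T' ν m a' a' B C (x' D D')
      unfold cupb
      rw [LinearMap.sum_apply, LinearMap.sum_apply]
      refine sum_congr rfl fun M _ => ?_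
      rw [LinearMap.sum_apply, LinearMap.sum_apply]
      exact sum_congr rfl fun F _ => h _ _ _ _ _ _
  unfold dl
  conv_lhs => unfold cupb
  conv_rhs => unfold cupb
  exact sum_congr rfl fun M _ => sum_congr rfl fun D _ => h1 _ _ _ _

theorem den_nat {E' : Type} [AddCommGroup E'] [Module K E'] {N' : Type} [AddCommGroup N']
    [Module K N'] (ν : V → ℕ) (m : ℕ) (T : N →ₗ[K] N →ₗ[K] E →ₗ[K] K)
    (T' : N' →ₗ[K] N' →ₗ[K] E' →ₗ[K] K) {x : Finset V → W → E} {a : Finset V → W → N}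
    {x' : Finset V → W → E'} {a' : Finset V → W → N'}
    (h : ∀ B w B' w' D w'', T (a B w) (a B' w') (x D w'') = T' (a' B w) (a' B' w') (x' D w''))
    (A : Finset V) (w : W) : den R ν m T x a A w = den R ν m T' x' a' A w :=
  dl_nat ν m T T' (fun _ _ _ _ _ _ => h _ _ _ _ _ _) A ∅

theorem den_inv {Γ : Subgroup W} (ν : V → ℕ) (m : ℕ) (T : N →ₗ[K] N →ₗ[K] E →ₗ[K] K)
    (ρE : Γ →* Module.End K E) (ρN : Γ →* Module.End K N)
    (hT : ∀ g n n' e, T (ρN g n) (ρN g n') (ρE g e) = T n n' e)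
    {x : Finset V → W → E} {a : Finset V → W → N} (hx : ∀ A, ∀ g : Γ, ∀ w, x A (g * w) = ρE g (x A w))
    (ha : ∀ A, ∀ g : Γ, ∀ w, a A (g * w) = ρN g (a A w)) (A : Finset V) (g : Γ) (w : W) :
    den R ν m T x a A (g * w) = den R ν m T x a A w := by
  refine dl_nat ν m T T (fun B C B' C' D D' => ?_) A ∅
  unfold loc
  rw [mul_assoc, mul_assoc, mul_assoc, hx, ha, ha, hT]

theorem dl_face (ν : V → ℕ) (m : ℕ) (T : N →ₗ[K] N →ₗ[K] E →ₗ[K] K) {Q : Finset V}
    {x x' : Finset V → Finset V → E} {a a' : Finset V → Finset V → N}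
    (hx : ∀ B C, Face Q B C → x B C = x' B C) (ha : ∀ B C, Face Q B C → a B C = a' B C)
    (B C : Finset V) (h : Face Q B C) : dl ν m T x a B C = dl ν m T x' a' B C :=
  cupb_face (fl K E) ν 0 hx (cupsb_face T ν m ha ha) B C h

theorem dl_shift (ν : V → ℕ) (m : ℕ) (T : N →ₗ[K] N →ₗ[K] E →ₗ[K] K) (v : V)
    (x : Finset V → Finset V → E) (a : Finset V → Finset V → N) (B C : Finset V) :
    dl ν m T (fun B C => x B (insert v C)) (fun B C => a B (insert v C)) B C =
      dl ν m T x a B (insert v C) := by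
  unfold dl
  rw [← cupb_shift]
  congr 1
  funext B C
  exact cupsb_shift T ν m v a a B C

theorem den_shift (ν : V → ℕ) (m : ℕ) (T : N →ₗ[K] N →ₗ[K] E →ₗ[K] K) (x : Finset V → W → E)
    (a : Finset V → W → N) {Q : Finset V} (hQ : G.IsClique (Q : Set V)) {v : V} (hv : v ∈ Q)
    (w : W) : den R ν m T x a (Q.erase v) (w * R.s v) =
      dl ν m T (loc R x w) (loc R a w) (Q.erase v) {v} := by
  unfold den
  rw [dl_face ν m T (loc_shift R x hQ hv w) (loc_shift R a hQ hv w) (Q.erase v) ∅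
    ⟨disjoint_empty_right _, by rw [union_empty]⟩, dl_shift]
  rfl

theorem den_cb [CharP K 2] [FiniteDimensional K E] [FiniteDimensional K N] {ν : V → ℕ}
    (hν : Function.Injective ν) (m : ℕ) (T : N →ₗ[K] N →ₗ[K] E →ₗ[K] K) (x : Finset V → W → E)
    {a : Finset V → W → N} (ha : cb R a = 0) {Q : Finset V} (hQ : G.IsClique (Q : Set V)) (w : W) :
    ∑ v ∈ Q, (den R ν (m + 1) T x a (Q.erase v) w +
      den R ν (m + 1) T x a (Q.erase v) (w * R.s v)) =
      den R ν (m + 1) T (cb R x) a Q w + den R ν m (T + T.flip) x a Q w := by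
  have hF : Face Q Q ∅ := ⟨disjoint_empty_right _, by rw [union_empty]⟩
  have h1 : ∑ v ∈ Q, (den R ν (m + 1) T x a (Q.erase v) w +
      den R ν (m + 1) T x a (Q.erase v) (w * R.s v)) =
      cobm (cupb (fl K E) ν 0 (loc R x w) (cupsb T ν (m + 1) (loc R a w) (loc R a w))) Q ∅ := by
    unfold cobm
    refine sum_congr rfl fun v hv => ?_
    rw [den_shift R ν (m + 1) T x a hQ hv w]
    rfl
  rw [h1, cobm_cupb_zero]
  congr 1
  · exact cupb_face (fl K E) ν 0 (cobm_loc R x hQ w) (fun _ _ _ => rfl) Q ∅ hF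
  · refine cupb_face (fl K E) ν 0 (fun _ _ _ => rfl) (fun B C h => ?_) Q ∅ hF
    refine cobm_cupsb_self T hν m (fun B C h => ?_) B C h
    rw [cobm_loc R a hQ w B C h, ha]
    rfl

end Den

theorem Cc_map {E : Type} [AddCommGroup E] [Module K E] {E' : Type} [AddCommGroup E'] [Module K E']
    {Γ : Subgroup W} (ρ : Γ →* Module.End K E) (ρ' : Γ →* Module.End K E') (L : E →ₗ[K] E')
    (hL : ∀ g e, L (ρ g e) = ρ' g (L e)) {k : ℕ} {x : Finset V → W → E} (hx : x ∈ Cc R Γ ρ k) :
    (fun A w => L (x A w)) ∈ Cc R Γ ρ' k := by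
  obtain ⟨h1, h2, h3⟩ := (mem_Cc R).1 hx
  refine (mem_Cc R).2 ⟨fun A hA => h1 A fun h => hA ?_, fun A v hv w => ?_, fun A g w => ?_⟩
  · funext w
    show L (x A w) = 0
    rw [h, Pi.zero_apply, map_zero]
  · show L (x A (w * R.s v)) = L (x A w)
    rw [h2 A v hv]
  · show L (x A (g * w)) = ρ' g (L (x A w))
    rw [h3 A g w, hL]

theorem cb_map {E : Type} [AddCommGroup E] [Module K E] {E' : Type} [AddCommGroup E'] [Module K E']
    (L : E →ₗ[K] E') (x : Finset V → W → E) (A : Finset V) (w : W) :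
    cb R (fun A w => L (x A w)) A w = L (cb R x A w) := by
  unfold cb
  by_cases h : G.IsClique (A : Set V)
  · rw [if_pos h, if_pos h, map_sum]
    exact sum_congr rfl fun v _ => (map_add L _ _).symm
  · rw [if_neg h, if_neg h, map_zero]

/-- **The data for spheres.** -/
noncomputable def sph [CharP K 2] {n : ℕ} (hS : IsSph G n) {Γ : Subgroup W}
    (hb : ∀ g ∈ Γ, ∀ v, R.b g v = 0) {F : Finset W} (hF : IsTr Γ F) (j : ℕ) {ν : V → ℕ}
    (hν : Function.Injective ν) : Sys K Γ where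
  S := Finset V × W
  S' := Finset V × W
  XC ρ k x := (fun A w => x (A, w)) ∈ Cc R Γ ρ k
  d x s := cb R (fun A w => x (A, w)) s.1 s.2
  YC ρ a := (fun A w => a (A, w)) ∈ Cc R Γ ρ j ∧ cb R (fun A w => a (A, w)) = 0
  I m _ _ _ _ _ _ T x a := INT G R F n (den R ν m T (fun A w => x (A, w)) fun A w => a (A, w))
  XC_map ρ ρ' L hL k x hx := Cc_map R ρ ρ' L hL hx
  d_map L x s := cb_map R L _ _ _
  YC_map ρ ρ' L hL a ha := by
    refine ⟨Cc_map R ρ ρ' L hL ha.1, ?_⟩
    funext A w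
    rw [cb_map R L (fun A w => a (A, w)), ha.2]
    exact map_zero L
  I_zero T x a := by
    refine INT_zero R F n fun A _ _ p _ => ?_
    exact cupb_zero_right _ ν 0 _ A ∅
  I_nat m _ _ _ _ _ _ _ _ _ _ _ _ T x a T' x' a' h := by
    refine INT_congr R F n fun A _ _ p _ => ?_
    exact den_nat R ν m T T' (fun _ _ _ _ _ _ => h _ _ _) A p
  step m k _ _ _ _ _ _ _ _ ρE ρN T x a hT hx ha := by
    have h1 := stokes R hS hF hb (M := K) CharTwo.add_self_eq_zero
      (den R ν (m + 1) T (fun A w => x (A, w)) fun A w => a (A, w)) (fun B g hg w =>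
        den_inv R ν (m + 1) T ρE ρN hT ((mem_Cc R).1 hx).2.2 ((mem_Cc R).1 ha.1).2.2 B ⟨g, hg⟩ w)
    rw [INT_congr R F n (fun A hA _ p _ => den_cb R hν m T (fun A w => x (A, w)) ha.2 hA p),
      INT_add] at h1
    exact CharTwo.add_eq_zero.1 h1

theorem effA_sph [CharP K 2] {n : ℕ} (hS : IsSph G n) {Γ : Subgroup W}
    (hb : ∀ g ∈ Γ, ∀ v, R.b g v = 0) {F : Finset W} (hF : IsTr Γ F) (j : ℕ) {ν : V → ℕ}
    (hν : Function.Injective ν) {Λ : Subgroup Kˣ} (hE : Eff R K Γ Λ) :
    EffA (sph R (K := K) hS hb hF j hν) Λ := by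
  intro k E _ _ _ ρ hρ x hx hd
  obtain ⟨E', i1, i2, i3, ρ', ι, y, h1, h2, h3, h4, h5⟩ := hE k E ρ hρ (fun A w => x (A, w)) hx
    (funext fun A => funext fun w => hd (A, w))
  exact ⟨E', i1, i2, i3, ρ', ι, fun s => y s.1 s.2, h1, h2, h3, h4, fun s => h5 s.1 s.2⟩

/-- the cup product of order `j` of a cochain of degree `j` with itself -/
theorem cupb_top {N M : Type} [AddCommGroup N] [Module K N] [AddCommGroup M] [Module K M]
    (b : N →ₗ[K] N →ₗ[K] M) (ν : V → ℕ) (j : ℕ) {a : Finset V → Finset V → N}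
    (ha : ∀ B C, B.card ≠ j → a B C = 0) (B C : Finset V) :
    cupb b ν j a a B C = b (a B C) (a B C) := by
  by_cases hB : B.card = j
  · unfold cupb
    have h1 : B.powersetCard j = {B} := by rw [← hB, powersetCard_self]
    have h2 : B \ B = ∅ := Finset.sdiff_self B
    rw [h1, sum_singleton, h2, powerset_empty, sum_singleton]
    simp
  · rw [ha B C hB, map_zero]
    unfold cupb
    refine sum_eq_zero fun N hN => sum_eq_zero fun D hD => ?_
    by_cases h1 : (B \ D).card = j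
    · have h2 : (N ∪ D).card ≠ j := by
        intro h3
        obtain ⟨hN1, hN2⟩ := mem_powersetCard.1 hN
        have hD1 := mem_powerset.1 hD
        have h4 : Disjoint N D := disjoint_sdiff_self_right.mono_right hD1
        rw [card_union_of_disjoint h4, hN2] at h3
        have h5 : D = ∅ := card_eq_zero.1 (by omega)
        rw [h5, sdiff_empty] at h1
        exact hB h1
      rw [ha _ _ h2, map_zero, LinearMap.zero_apply]
    · rw [ha _ _ h1, map_zero]

/-- the cup product of order `0` at the base point -/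
theorem cupb_base {N N' M : Type} [AddCommGroup N] [Module K N] [AddCommGroup N'] [Module K N']
    [AddCommGroup M] [Module K M] (b : N →ₗ[K] N' →ₗ[K] M) (ν : V → ℕ)
    (x : Finset V → Finset V → N) (y : Finset V → Finset V → N') (A : Finset V) :
    cupb b ν 0 x y A ∅ = ∑ D ∈ A.powerset, b (x D ∅) (y (A \ D) D) := by
  unfold cupb
  rw [powersetCard_zero, sum_singleton, sdiff_empty]
  refine sum_congr rfl fun τ _ => ?_
  have h6 : ∀ v, bel ν ∅ v = 0 := fun v => by simp [bel]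
  have h7 : τ.filter (fun v => Even (bel ν ∅ v)) = τ :=
    filter_true_of_mem fun v _ => by rw [h6]; exact Even.zero
  have h8 : ((A \ (∅ ∪ τ)).filter fun v => ¬ Even (bel ν ∅ v)) = ∅ :=
    filter_false_of_mem fun v _ h => h (by rw [h6]; exact Even.zero)
  rw [h7, h8, empty_union, empty_union]

/-- **The unstable relation for spheres.** -/
theorem U_main [CharP K 2] {n : ℕ} (hS : IsSph G n) {Γ : Subgroup W}
    (hb : ∀ g ∈ Γ, ∀ v, R.b g v = 0) (χ : Γ →* Kˣ) (hE : Eff R K Γ (sqr χ)) {F : Finset W}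
    (hF : IsTr Γ F) {i j : ℕ} (hij : i + j = n) (hji : j < i) {x : Finset V → W → K}
    (hx : x ∈ Cc R Γ (ch (χ⁻¹ ^ 2)) i) (hd : cb R x = 0) :
    ∃ (N : Type) (_ : AddCommGroup N) (_ : Module K N) (_ : FiniteDimensional K N)
      (ρ : Γ →* Module.End K N) (π : N →ₗ[K] K), Tri (sqr χ) ρ ∧ Function.Surjective π ∧
      (∀ g y, π (ρ g y) = π y) ∧ ∀ a ∈ Cc R Γ (tw χ ρ) j, cb R a = 0 →
        INT G R F n (fun A w => ∑ τ ∈ A.powersetCard i,
          x τ w * π (a (A \ τ) (w * gp R.s τ)) ^ 2) = 0 := by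
  classical
  obtain ⟨ν, hν⟩ : ∃ ν : V → ℕ, Function.Injective ν :=
    ⟨fun v => (Fintype.equivFin V v : ℕ), fun u v h =>
      (Fintype.equivFin V).injective (Fin.ext h)⟩
  have hc : (χ⁻¹ ^ 2 : Γ →* Kˣ) = im2 χ := MonoidHom.ext fun g => inv_pow (χ g) 2
  rw [hc] at hx
  have hE' := effA_sph R hS hb hF j hν hE
  obtain ⟨N, i1, i2, i3, ρ, π, h1, h2, h3, h4⟩ := claim (sph R (K := K) hS hb hF j hν) hE' (j + 1)
    i (by omega) K K (ch (im2 χ)) 1 (tri_ch (im2_mem χ)) tri_one
    (LinearMap.mk₂ K (fun n n' => (n * n') • (LinearMap.id : K →ₗ[K] K))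
      (fun a b c => by rw [add_mul, add_smul]) (fun c a b => by rw [smul_eq_mul, mul_assoc, mul_smul])
      (fun a b c => by rw [mul_add, add_smul])
      (fun c a b => by rw [smul_eq_mul, mul_left_comm, mul_smul]))
    (fun a b => by
      show (a * b) • (LinearMap.id : K →ₗ[K] K) = (b * a) • _
      rw [mul_comm])
    (fun g a b e => by
      show (a * b) * ((im2 χ g : K) * e) = (im2 χ g : K) * (a * b * e)
      ring)
    (fun s => x s.1 s.2) hx (fun s => by
      show cb R x s.1 s.2 = 0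
      rw [hd]
      rfl)
  refine ⟨N, i1, i2, i3, ρ, π, h1, h2, h3, fun a ha hca => ?_⟩
  rw [← h4 (fun s => a s.1 s.2) ⟨ha, hca⟩]
  refine INT_congr R F n fun A hA hAn p _ => ?_
  have hz : ∀ B C, B.card ≠ j → loc R (fun A w => π (a A w)) p B C = 0 := by
    intro B C hB
    have h5 : a B = 0 := by
      by_contra h
      exact hB (((mem_Cc R).1 ha).1 B h).2
    show π (a B _) = 0
    rw [h5, Pi.zero_apply, map_zero]
  show _ = cupb (fl K K) ν 0 (loc R x p) (cupb _ ν j (loc R (fun A w => π (a A w)) p)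
    (loc R (fun A w => π (a A w)) p)) A ∅
  rw [cupb_base]
  have h7 : ∀ B ∈ A.powerset, B ∉ A.powersetCard i → fl K K (loc R x p B ∅)
      (cupb (LinearMap.mk₂ K (fun n n' => (n * n') • (LinearMap.id : K →ₗ[K] K))
        (fun a b c => by rw [add_mul, add_smul])
        (fun c a b => by rw [smul_eq_mul, mul_assoc, mul_smul])
        (fun a b c => by rw [mul_add, add_smul])
        (fun c a b => by rw [smul_eq_mul, mul_left_comm, mul_smul])) ν j
        (loc R (fun A w => π (a A w)) p) (loc R (fun A w => π (a A w)) p) (A \ B) B) = 0 := by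
    intro B hB hB'
    have h9 : x B = 0 := by
      by_contra h
      exact hB' (mem_powersetCard.2 ⟨mem_powerset.1 hB, (((mem_Cc R).1 hx).1 B h).2⟩)
    have h10 : loc R x p B ∅ = 0 := by
      unfold loc
      rw [h9]
      rfl
    rw [h10, map_zero]
    rfl
  rw [← sum_subset (fun B hB => mem_powerset.2 (mem_powersetCard.1 hB).1) h7]
  refine sum_congr rfl fun τ hτ => ?_
  rw [cupb_top _ ν j hz]
  show x τ p * π (a (A \ τ) (p * gp R.s τ)) ^ 2 =
    (π (a (A \ τ) (p * gp R.s τ)) * π (a (A \ τ) (p * gp R.s τ))) * x τ (p * gp R.s ∅)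
  rw [gp_emp, mul_one]
  ring

end Pool.Agent.S9.U
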