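import Pool.Agent.S9.F.Disc
import Pool.Agent.S9.U.Sph

/-!
# Project S9, block U: the unstable relation for discs
-/

set_option autoImplicit false
set_option linter.unusedSectionVars false

open Finset

namespace Pool.Agent.S9.U

open Pool.Agent.H73.GC

open Pool.Agent.H19.SR (cob cupc bel Face gp IsSph)

variable {V : Type} [DecidableEq V] [Fintype V] {G : SimpleGraph V} {W : Type} [Group W]
  (R : Rac G W) {K : Type} [Field K]

theorem den_bdry {E : Type} [AddCommGroup E] [Module K E] {N : Type} [AddCommGroup N] [Module K N]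
    {Bd : Finset V → Prop} (ν : V → ℕ) (m : ℕ) (T : N →ₗ[K] N →ₗ[K] E →ₗ[K] K)
    (x : Finset V → W → E) {a : Finset V → W → N} {s : Finset V}
    (hd : ∀ t, Bd s → t ⊆ s → Bd t) (hs : Bd s) (ha : ∀ s, Bd s → ∀ w, a s w = 0) (w : W) :
    den R ν (m + 1) T x a s w = 0 := by
  have h1 : ∀ B C, Face s B C → loc R a w B C = (fun _ _ => (0 : N)) B C := fun B C h =>
    ha B (hd B hs (subset_union_left.trans h.2)) _
  have h2 : ∀ B C, Face s B C → cupsb T ν (m + 1) (loc R a w) (loc R a w) B C =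
      (fun _ _ => (0 : E →ₗ[K] K)) B C := by
    intro B C h
    show cupb T ν m (loc R a w) (loc R a w) B C = 0
    rw [cupb_face T ν m h1 (fun _ _ _ => rfl) B C h]
    exact cupb_zero_left T ν m _ B C
  show cupb (fl K E) ν 0 (loc R x w) (cupsb T ν (m + 1) (loc R a w) (loc R a w)) s ∅ = 0
  rw [cupb_face (fl K E) ν 0 (fun _ _ _ => rfl) h2 s ∅
    ⟨disjoint_empty_right _, by rw [union_empty]⟩]
  exact cupb_zero_right (fl K E) ν 0 _ s ∅

/-- **The data for discs.** -/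
noncomputable def dsc [CharP K 2] {n : ℕ} {Bd : Finset V → Prop} (hS : IsDisc G n Bd) {Γ : Subgroup W}
    (hb : ∀ g ∈ Γ, ∀ v, R.b g v = 0) {F : Finset W} (hF : IsTr Γ F) (j : ℕ) {ν : V → ℕ}
    (hν : Function.Injective ν) : Sys K Γ where
  S := Finset V × W
  S' := Finset V × W
  XC ρ k x := (fun A w => x (A, w)) ∈ Cc R Γ ρ k
  d x s := cb R (fun A w => x (A, w)) s.1 s.2
  YC ρ a := (fun A w => a (A, w)) ∈ Cc R Γ ρ j ∧ cb R (fun A w => a (A, w)) = 0 ∧
    ∀ s, Bd s → ∀ w, a (s, w) = 0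
  I m _ _ _ _ _ _ T x a := INT G R F n (den R ν m T (fun A w => x (A, w)) fun A w => a (A, w))
  XC_map ρ ρ' L hL k x hx := Cc_map R ρ ρ' L hL hx
  d_map L x s := cb_map R L _ _ _
  YC_map ρ ρ' L hL a ha := by
    refine ⟨Cc_map R ρ ρ' L hL ha.1, ?_, fun s hs w => ?_⟩
    · funext A w
      rw [cb_map R L (fun A w => a (A, w)), ha.2.1]
      exact map_zero L
    · show L (a (s, w)) = 0
      rw [ha.2.2 s hs w, map_zero]
  I_zero T x a := by
    refine INT_zero R F n fun A _ _ p _ => ?_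
    exact cupb_zero_right _ ν 0 _ A ∅
  I_nat m _ _ _ _ _ _ _ _ _ _ _ _ T x a T' x' a' h := by
    refine INT_congr R F n fun A _ _ p _ => ?_
    exact den_nat R ν m T T' (fun _ _ _ _ _ _ => h _ _ _) A p
  step m k _ _ _ _ _ _ _ _ ρE ρN T x a hT hx ha := by
    have h1 := stokesD R hS hF hb (M := K) CharTwo.add_self_eq_zero
      (den R ν (m + 1) T (fun A w => x (A, w)) fun A w => a (A, w)) (fun B g hg w =>
        den_inv R ν (m + 1) T ρE ρN hT ((mem_Cc R).1 hx).2.2 ((mem_Cc R).1 ha.1).2.2 B ⟨g, hg⟩ w)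
        (fun s hs w => den_bdry R ν m T _ (hS.down s) hs ha.2.2 w)
    rw [INT_congr R F n (fun A hA _ p _ => den_cb R hν m T (fun A w => x (A, w)) ha.2.1 hA p),
      INT_add] at h1
    exact CharTwo.add_eq_zero.1 h1

theorem effA_dsc [CharP K 2] {n : ℕ} {Bd : Finset V → Prop} (hS : IsDisc G n Bd) {Γ : Subgroup W}
    (hb : ∀ g ∈ Γ, ∀ v, R.b g v = 0) {F : Finset W} (hF : IsTr Γ F) (j : ℕ) {ν : V → ℕ}
    (hν : Function.Injective ν) {Λ : Subgroup Kˣ} (hE : Eff R K Γ Λ) :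
    EffA (dsc R (K := K) hS hb hF j hν) Λ := by
  intro k E _ _ _ ρ hρ x hx hd
  obtain ⟨E', i1, i2, i3, ρ', ι, y, h1, h2, h3, h4, h5⟩ := hE k E ρ hρ (fun A w => x (A, w)) hx
    (funext fun A => funext fun w => hd (A, w))
  exact ⟨E', i1, i2, i3, ρ', ι, fun s => y s.1 s.2, h1, h2, h3, h4, fun s => h5 s.1 s.2⟩

/-- **The unstable relation for discs.** -/
theorem U_mainD [CharP K 2] {n : ℕ} {Bd : Finset V → Prop} (hS : IsDisc G n Bd) {Γ : Subgroup W}
    (hb : ∀ g ∈ Γ, ∀ v, R.b g v = 0) (χ : Γ →* Kˣ) (hE : Eff R K Γ (sqr χ)) {F : Finset W}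
    (hF : IsTr Γ F) {i j : ℕ} (hij : i + j = n) (hji : j < i) {x : Finset V → W → K}
    (hx : x ∈ Cc R Γ (ch (χ⁻¹ ^ 2)) i) (hd : cb R x = 0) :
    ∃ (N : Type) (_ : AddCommGroup N) (_ : Module K N) (_ : FiniteDimensional K N)
      (ρ : Γ →* Module.End K N) (π : N →ₗ[K] K), Tri (sqr χ) ρ ∧ Function.Surjective π ∧
      (∀ g y, π (ρ g y) = π y) ∧ ∀ a ∈ Cc R Γ (tw χ ρ) j, cb R a = 0 → (∀ s, Bd s → a s = 0) →
        INT G R F n (fun A w => ∑ τ ∈ A.powersetCard i,
          x τ w * π (a (A \ τ) (w * gp R.s τ)) ^ 2) = 0 := by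
  classical
  obtain ⟨ν, hν⟩ : ∃ ν : V → ℕ, Function.Injective ν :=
    ⟨fun v => (Fintype.equivFin V v : ℕ), fun u v h =>
      (Fintype.equivFin V).injective (Fin.ext h)⟩
  have hc : (χ⁻¹ ^ 2 : Γ →* Kˣ) = im2 χ := MonoidHom.ext fun g => inv_pow (χ g) 2
  rw [hc] at hx
  have hE' := effA_dsc R hS hb hF j hν hE
  obtain ⟨N, i1, i2, i3, ρ, π, h1, h2, h3, h4⟩ := claim (dsc R (K := K) hS hb hF j hν) hE' (j + 1)
    i (by omega) K K (ch (im2 χ)) 1 (tri_ch (im2_mem χ)) tri_one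
    (LinearMap.mk₂ K (fun n n' => (n * n') • (LinearMap.id : K →ₗ[K] K))
      (fun a b c => by rw [add_mul, add_smul]) (fun c a b => by rw [smul_eq_mul, mul_assoc, mul_smul])
      (fun a b c => by rw [mul_add, add_smul])
      (fun c a b => by rw [smul_eq_mul, mul_left_comm, mul_smul]))
    (fun a b => by
      show (a * b) • (LinearMap.id : K →ₗ[K] K) = (b * a) • _
      rw [mul_comm])
    (fun g a b e => by
      show (a * b) * ((im2 χ g : K) * e) = (im2 χ g : K) * (a * b * e)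
      ring)
    (fun s => x s.1 s.2) hx (fun s => by
      show cb R x s.1 s.2 = 0
      rw [hd]
      rfl)
  refine ⟨N, i1, i2, i3, ρ, π, h1, h2, h3, fun a ha hca hBa => ?_⟩
  rw [← h4 (fun s => a s.1 s.2) ⟨ha, hca, fun s hs w => by
    show a s w = 0
    rw [hBa s hs]
    rfl⟩]
  refine INT_congr R F n fun A hA hAn p _ => ?_
  have hz : ∀ B C, B.card ≠ j → loc R (fun A w => π (a A w)) p B C = 0 := by
    intro B C hB
    have h5 : a B = 0 := by
      by_contra h
      exact hB (((mem_Cc R).1 ha).1 B h).2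
    show π (a B _) = 0
    rw [h5, Pi.zero_apply, map_zero]
  show _ = cupb (fl K K) ν 0 (loc R x p) (cupb _ ν j (loc R (fun A w => π (a A w)) p)
    (loc R (fun A w => π (a A w)) p)) A ∅
  rw [cupb_base]
  have h7 : ∀ B ∈ A.powerset, B ∉ A.powersetCard i → fl K K (loc R x p B ∅)
      (cupb (LinearMap.mk₂ K (fun n n' => (n * n') • (LinearMap.id : K →ₗ[K] K))
        (fun a b c => by rw [add_mul, add_smul])
        (fun c a b => by rw [smul_eq_mul, mul_assoc, mul_smul])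
        (fun a b c => by rw [mul_add, add_smul])
        (fun c a b => by rw [smul_eq_mul, mul_left_comm, mul_smul])) ν j
        (loc R (fun A w => π (a A w)) p) (loc R (fun A w => π (a A w)) p) (A \ B) B) = 0 := by
    intro B hB hB'
    have h9 : x B = 0 := by
      by_contra h
      exact hB' (mem_powersetCard.2 ⟨mem_powerset.1 hB, (((mem_Cc R).1 hx).1 B h).2⟩)
    have h10 : loc R x p B ∅ = 0 := by
      unfold loc
      rw [h9]
      rfl
    rw [h10, map_zero]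
    rfl
  rw [← sum_subset (fun B hB => mem_powerset.2 (mem_powersetCard.1 hB).1) h7]
  refine sum_congr rfl fun τ hτ => ?_
  rw [cupb_top _ ν j hz]
  show x τ p * π (a (A \ τ) (p * gp R.s τ)) ^ 2 =
    (π (a (A \ τ) (p * gp R.s τ)) * π (a (A \ τ) (p * gp R.s τ))) * x τ (p * gp R.s ∅)
  rw [gp_emp, mul_one]
  ring

end Pool.Agent.S9.U
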