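import Pool.Agent.S9.Defs

/-!
# Project S9, block U: triangular modules

Closure of the class of triangular modules under submodules, quotients, products and modules of linear maps.
-/

set_option autoImplicit false
set_option linter.unusedSectionVars false

namespace Pool.Agent.S9.U

open Relation

variable {K : Type} [Field K] {H : Type} [Group H]

private theorem chain_lift {α β : Type} {r : α → α → Prop} {p : β → β → Prop} (f : α → β)
    (h : ∀ a b, r a b → p (f a) (f b)) {a b : α} (hab : ReflTransGen r a b) :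
    ReflTransGen p (f a) (f b) := ReflTransGen.lift f h _ _ hab

/-- one step of a filtration -/
def Stp (Λ : Subgroup Kˣ) {N : Type} [AddCommGroup N] [Module K N] (ρ : H →* Module.End K N)
    (S S' : Submodule K N) : Prop :=
  S ≤ S' ∧ ∃ lam : H →* Kˣ, (∀ g, lam g ∈ Λ) ∧ ∀ g, ∀ y ∈ S', ρ g y - (lam g : K) • y ∈ S

section

variable {Λ : Subgroup Kˣ} {N : Type} [AddCommGroup N] [Module K N] {ρ : H →* Module.End K N}

theorem Stp.inv {S S' : Submodule K N} (h : Stp Λ ρ S S') :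
    ∀ g, ∀ y ∈ S', ρ g y ∈ S' := by
  obtain ⟨h1, lam, -, h2⟩ := h
  intro g y hy
  have h3 := S'.add_mem (h1 (h2 g y hy)) (S'.smul_mem (lam g : K) hy)
  rwa [sub_add_cancel] at h3

theorem Stp.inv' {S S' : Submodule K N} (h : Stp Λ ρ S S') :
    ∀ g, ∀ y ∈ S', ρ g y ∈ S' := h.inv

private theorem chain_inv {S : Submodule K N} (h : ReflTransGen (Stp Λ ρ) ⊥ S) :
    ∀ g, ∀ y ∈ S, ρ g y ∈ S := by
  rcases ReflTransGen.cases_tail h with h1 | ⟨T, _, h2⟩
  · subst h1
    intro g y hy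
    rw [(Submodule.mem_bot K).1 hy, map_zero]
    exact Submodule.zero_mem _
  · exact h2.inv

private theorem chain_ex {S : Submodule K N} (h : ReflTransGen (Stp Λ ρ) ⊥ S) :
    ∃ (n : ℕ) (F : ℕ → Submodule K N), Monotone F ∧ F 0 = ⊥ ∧ F n = S ∧
    ∀ j, ∃ lam : H →* Kˣ, (∀ g, lam g ∈ Λ) ∧ ∀ g, ∀ y ∈ F (j + 1), ρ g y - (lam g : K) • y ∈ F j := by
  induction h with
  | refl =>
    refine ⟨0, fun _ => ⊥, fun _ _ _ => le_rfl, rfl, rfl, fun j => ⟨1, fun g => Λ.one_mem, ?_⟩⟩
    intro g y hy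
    rw [(Submodule.mem_bot K).1 hy, map_zero, smul_zero, sub_zero]
    exact Submodule.zero_mem _
  | @tail S S' h1 h2 ih =>
    obtain ⟨n, F, hm, h0, hn, hF⟩ := ih
    have hle : ∀ j ≤ n, F j ≤ S' := fun j hj => (hm hj).trans (hn.le.trans h2.1)
    refine ⟨n + 1, fun j => if j ≤ n then F j else S', ?_, ?_, ?_, ?_⟩
    · intro i j hij
      show (if i ≤ n then F i else S') ≤ if j ≤ n then F j else S'
      by_cases hj : j ≤ n
      · rw [if_pos hj, if_pos (hij.trans hj)]
        exact hm hij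
      · rw [if_neg hj]
        by_cases hi : i ≤ n
        · rw [if_pos hi]
          exact hle i hi
        · rw [if_neg hi]
    · show (if 0 ≤ n then F 0 else S') = ⊥
      rw [if_pos (Nat.zero_le n), h0]
    · show (if n + 1 ≤ n then F (n + 1) else S') = S'
      rw [if_neg (Nat.not_succ_le_self n)]
    · intro j
      rcases lt_trichotomy j n with h | h | h
      · obtain ⟨lam, h3, h4⟩ := hF j
        refine ⟨lam, h3, fun g y hy => ?_⟩
        have hy' : y ∈ if j + 1 ≤ n then F (j + 1) else S' := hy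
        rw [if_pos (show j + 1 ≤ n from h)] at hy'
        show _ ∈ if j ≤ n then F j else S'
        rw [if_pos h.le]
        exact h4 g y hy'
      · subst h
        obtain ⟨lam, h3, h4⟩ := h2.2
        refine ⟨lam, h3, fun g y hy => ?_⟩
        have hy' : y ∈ if j + 1 ≤ j then F (j + 1) else S' := hy
        rw [if_neg (Nat.not_succ_le_self j)] at hy'
        show _ ∈ if j ≤ j then F j else S'
        rw [if_pos le_rfl, hn]
        exact h4 g y hy'
      · refine ⟨1, fun g => Λ.one_mem, fun g y hy => ?_⟩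
        have hy' : y ∈ if j + 1 ≤ n then F (j + 1) else S' := hy
        rw [if_neg (by omega)] at hy'
        show _ ∈ if j ≤ n then F j else S'
        rw [if_neg (by omega)]
        refine S'.sub_mem (h2.inv g y hy') ?_
        exact S'.smul_mem _ hy'

theorem tri_iff : Tri Λ ρ ↔ ReflTransGen (Stp Λ ρ) ⊥ ⊤ := by
  constructor
  · rintro ⟨n, F, hm, h0, hn, h⟩
    have h1 : ∀ j, ReflTransGen (Stp Λ ρ) ⊥ (F j) := by
      intro j
      induction j with
      | zero => rw [h0]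
      | succ j ih => exact ih.tail ⟨hm (Nat.le_succ j), h j⟩
    rw [← hn]
    exact h1 n
  · exact chain_ex

end

section

variable {Λ : Subgroup Kˣ} {N : Type} [AddCommGroup N] [Module K N] {ρ : H →* Module.End K N}
  {N' : Type} [AddCommGroup N'] [Module K N'] {ρ' : H →* Module.End K N'}

/-- submodules -/
theorem Tri.of_inj (h : Tri Λ ρ) (ι : N' →ₗ[K] N) (hi : Function.Injective ι)
    (he : ∀ g y, ι (ρ' g y) = ρ g (ι y)) : Tri Λ ρ' := by
  rw [tri_iff] at h ⊢
  have h1 : ∀ S S' : Submodule K N, Stp Λ ρ S S' → Stp Λ ρ' (S.comap ι) (S'.comap ι) := by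
    rintro S S' ⟨h1, lam, h2, h3⟩
    refine ⟨Submodule.comap_mono h1, lam, h2, fun g y hy => ?_⟩
    rw [Submodule.mem_comap] at hy ⊢
    rw [map_sub, map_smul, he]
    exact h3 g _ hy
  have h2 := chain_lift (fun S : Submodule K N => S.comap ι) h1 h
  have h3 : (⊥ : Submodule K N).comap ι = ⊥ := by
    rw [← LinearMap.ker, LinearMap.ker_eq_bot.2 hi]
  simpa only [h3, Submodule.comap_top] using h2

/-- quotients -/
theorem Tri.of_surj (h : Tri Λ ρ) (q : N →ₗ[K] N') (hq : Function.Surjective q)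
    (he : ∀ g y, q (ρ g y) = ρ' g (q y)) : Tri Λ ρ' := by
  rw [tri_iff] at h ⊢
  have h1 : ∀ S S' : Submodule K N, Stp Λ ρ S S' → Stp Λ ρ' (S.map q) (S'.map q) := by
    rintro S S' ⟨h1, lam, h2, h3⟩
    refine ⟨Submodule.map_mono h1, lam, h2, fun g y hy => ?_⟩
    obtain ⟨z, hz, rfl⟩ := (Submodule.mem_map).1 hy
    refine Submodule.mem_map.2 ⟨_, h3 g z hz, ?_⟩
    rw [map_sub, map_smul, he]
  have h2 := chain_lift (fun S : Submodule K N => S.map q) h1 h
  have h3 : (⊤ : Submodule K N).map q = ⊤ := by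
    rw [Submodule.map_top, LinearMap.range_eq_top.2 hq]
  simpa only [h3, Submodule.map_bot] using h2

/-- the product -/
def prodR (ρ : H →* Module.End K N) (ρ' : H →* Module.End K N') : H →* Module.End K (N × N') where
  toFun g := (ρ g).prodMap (ρ' g)
  map_one' := by
    rw [map_one, map_one]
    exact LinearMap.prodMap_one
  map_mul' g h := by
    rw [map_mul, map_mul]
    exact (LinearMap.prodMap_mul _ _ _ _).symm

theorem prodR_apply (g : H) (y : N × N') : prodR ρ ρ' g y = (ρ g y.1, ρ' g y.2) := rfl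

theorem Tri.prod (h : Tri Λ ρ) (h' : Tri Λ ρ') : Tri Λ (prodR ρ ρ') := by
  rw [tri_iff] at h h' ⊢
  have h1 : ∀ S S' : Submodule K N, Stp Λ ρ S S' →
      Stp Λ (prodR ρ ρ') (S.prod ⊥) (S'.prod ⊥) := by
    rintro S S' ⟨h1, lam, h2, h3⟩
    refine ⟨Submodule.prod_mono h1 le_rfl, lam, h2, fun g y hy => ?_⟩
    rw [Submodule.mem_prod] at hy ⊢
    refine ⟨h3 g _ hy.1, ?_⟩
    show ρ' g y.2 - (lam g : K) • y.2 ∈ _
    rw [(Submodule.mem_bot K).1 hy.2, map_zero, smul_zero, sub_zero]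
    exact Submodule.zero_mem _
  have h2 : ∀ S S' : Submodule K N', Stp Λ ρ' S S' →
      Stp Λ (prodR ρ ρ') ((⊤ : Submodule K N).prod S) ((⊤ : Submodule K N).prod S') := by
    rintro S S' ⟨h1, lam, h2, h3⟩
    refine ⟨Submodule.prod_mono le_rfl h1, lam, h2, fun g y hy => ?_⟩
    rw [Submodule.mem_prod] at hy ⊢
    exact ⟨Submodule.mem_top, h3 g _ hy.2⟩
  have h3 := chain_lift (fun S : Submodule K N => S.prod (⊥ : Submodule K N')) h1 h
  have h4 := chain_lift (fun S : Submodule K N' => (⊤ : Submodule K N).prod S) h2 h'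
  have h5 := h3.trans h4
  simpa only [Submodule.prod_bot, Submodule.prod_top] using h5

/-- linear maps -/
def homR (ρ : H →* Module.End K N) (ρ' : H →* Module.End K N') :
    H →* Module.End K (N →ₗ[K] N') where
  toFun g :=
    { toFun := fun ψ => ρ' g ∘ₗ ψ ∘ₗ ρ g⁻¹
      map_add' := fun ψ φ => by
        rw [LinearMap.add_comp, LinearMap.comp_add]
      map_smul' := fun a ψ => by
        rw [LinearMap.smul_comp, LinearMap.comp_smul]
        rfl }
  map_one' := by
    refine LinearMap.ext fun ψ => LinearMap.ext fun y => ?_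
    show ρ' 1 (ψ (ρ 1⁻¹ y)) = ψ y
    rw [inv_one, map_one, map_one]
    rfl
  map_mul' g h := by
    refine LinearMap.ext fun ψ => LinearMap.ext fun y => ?_
    show ρ' (g * h) (ψ (ρ (g * h)⁻¹ y)) = ρ' g (ρ' h (ψ (ρ h⁻¹ (ρ g⁻¹ y))))
    rw [mul_inv_rev, map_mul, map_mul]
    rfl

theorem homR_apply (g : H) (ψ : N →ₗ[K] N') (y : N) :
    homR ρ ρ' g ψ y = ρ' g (ψ (ρ g⁻¹ y)) := rfl

private theorem inv_act (g : H) (y : N) : ρ g⁻¹ (ρ g y) = y := by
  rw [← Module.End.mul_apply, ← map_mul, inv_mul_cancel, map_one, Module.End.one_apply]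

private theorem act_inv (g : H) (y : N) : ρ g (ρ g⁻¹ y) = y := by
  rw [← Module.End.mul_apply, ← map_mul, mul_inv_cancel, map_one, Module.End.one_apply]

/-- the linear maps which vanish on `S` and map `S'` to `T` -/
private def HT (S S' : Submodule K N) (T : Submodule K N') : Submodule K (N →ₗ[K] N') where
  carrier := {ψ | (∀ y ∈ S, ψ y = 0) ∧ ∀ y ∈ S', ψ y ∈ T}
  zero_mem' := ⟨fun y _ => rfl, fun y _ => T.zero_mem⟩
  add_mem' := by
    rintro ψ φ ⟨h1, h2⟩ ⟨h3, h4⟩
    refine ⟨fun y hy => ?_, fun y hy => ?_⟩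
    · rw [LinearMap.add_apply, h1 y hy, h3 y hy, add_zero]
    · exact T.add_mem (h2 y hy) (h4 y hy)
  smul_mem' := by
    rintro a ψ ⟨h1, h2⟩
    refine ⟨fun y hy => ?_, fun y hy => ?_⟩
    · rw [LinearMap.smul_apply, h1 y hy, smul_zero]
    · exact T.smul_mem a (h2 y hy)

private theorem HT_stp {S S' : Submodule K N} (h : Stp Λ ρ S S')
    (hS : ∀ g, ∀ y ∈ S, ρ g y ∈ S) {T T' : Submodule K N'} (h' : Stp Λ ρ' T T') :
    Stp Λ (homR ρ ρ') (HT S S' T) (HT S S' T') := by
  obtain ⟨hT, mu, m1, m2⟩ := h'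
  have hi := h.inv
  obtain ⟨hS', lam, l1, l2⟩ := h
  refine ⟨fun ψ hψ => ⟨hψ.1, fun y hy => hT (hψ.2 y hy)⟩, mu * lam⁻¹, fun g => ?_, ?_⟩
  · rw [MonoidHom.mul_apply, MonoidHom.inv_apply]
    exact Λ.mul_mem (m1 g) (Λ.inv_mem (l1 g))
  · rintro g ψ ⟨h1, h2⟩
    refine ⟨fun y hy => ?_, fun y hy => ?_⟩
    · rw [LinearMap.sub_apply, LinearMap.smul_apply, h1 y hy, smul_zero, sub_zero, homR_apply,
        h1 _ (hS g⁻¹ y hy), map_zero]
    · rw [LinearMap.sub_apply, LinearMap.smul_apply, homR_apply]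
      have h3 : ψ (ρ g⁻¹ y) = ((lam g)⁻¹ : Kˣ) • ψ y := by
        have h4 := h1 _ (l2 g⁻¹ y hy)
        rw [map_sub, map_smul, sub_eq_zero] at h4
        rw [h4, map_inv]
        rfl
      have h5 := m2 g _ (h2 y hy)
      have h6 := T.smul_mem (((lam g)⁻¹ : Kˣ) : K) h5
      rw [smul_sub, smul_smul] at h6
      rw [h3, MonoidHom.mul_apply, MonoidHom.inv_apply, Units.val_mul, Units.smul_def, map_smul,
        mul_comm]
      exact h6

theorem Tri.hom (h : Tri Λ ρ) (h' : Tri Λ ρ') : Tri Λ (homR ρ ρ') := by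
  rw [tri_iff] at h h' ⊢
  have h1 : ∀ S : Submodule K N, ReflTransGen (Stp Λ ρ) ⊥ S →
      ReflTransGen (Stp Λ (homR ρ ρ')) (HT S S ⊤) (⊤ : Submodule K (N →ₗ[K] N')) := by
    intro S hS
    induction hS with
    | refl =>
      have h2 : HT (⊥ : Submodule K N) ⊥ (⊤ : Submodule K N') = ⊤ := by
        refine Submodule.eq_top_iff'.2 fun ψ => ⟨fun y hy => ?_, fun y _ => Submodule.mem_top⟩
        rw [(Submodule.mem_bot K).1 hy, map_zero]
      rw [h2]
    | @tail S S' h1 h2 ih =>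
      refine ReflTransGen.trans ?_ ih
      have h3 := chain_lift (fun T : Submodule K N' => HT S S' T)
        (fun T T' hT => HT_stp h2 (chain_inv h1) hT) h'
      have h4 : HT S S' (⊥ : Submodule K N') = HT S' S' ⊤ := by
        ext ψ
        constructor
        · rintro ⟨h5, h6⟩
          exact ⟨fun y hy => (Submodule.mem_bot K).1 (h6 y hy), fun y _ => Submodule.mem_top⟩
        · rintro ⟨h5, -⟩
          exact ⟨fun y hy => h5 y (h2.1 hy), fun y hy => (Submodule.mem_bot K).2 (h5 y hy)⟩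
      have h5 : HT S S' (⊤ : Submodule K N') = HT S S ⊤ := by
        ext ψ
        exact ⟨fun h => ⟨h.1, fun y _ => Submodule.mem_top⟩,
          fun h => ⟨h.1, fun y _ => Submodule.mem_top⟩⟩
      simpa only [h4, h5] using h3
  have h2 := h1 ⊤ h
  have h3 : HT (⊤ : Submodule K N) ⊤ (⊤ : Submodule K N') = ⊥ := by
    refine (Submodule.eq_bot_iff _).2 fun ψ hψ => LinearMap.ext fun y => hψ.1 y Submodule.mem_top
  rwa [h3] at h2

/-- a submodule -/
def subR (ρ : H →* Module.End K N) (S : Submodule K N) (h : ∀ g, ∀ y ∈ S, ρ g y ∈ S) :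
    H →* Module.End K S where
  toFun g := (ρ g).restrict (h g)
  map_one' := by
    refine LinearMap.ext fun y => Subtype.ext ?_
    show ρ 1 y = y
    rw [map_one]
    rfl
  map_mul' g g' := by
    refine LinearMap.ext fun y => Subtype.ext ?_
    show ρ (g * g') y = ρ g (ρ g' y)
    rw [map_mul]
    rfl

theorem subR_coe (S : Submodule K N) (h : ∀ g, ∀ y ∈ S, ρ g y ∈ S) (g : H) (y : S) :
    ((subR ρ S h g y : S) : N) = ρ g y := rfl

theorem Tri.sub (hT : Tri Λ ρ) (S : Submodule K N) (h : ∀ g, ∀ y ∈ S, ρ g y ∈ S) :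
    Tri Λ (subR ρ S h) :=
  Tri.of_inj hT S.subtype Subtype.val_injective fun _ _ => rfl

/-- the quotient by a submodule -/
def quoR (ρ : H →* Module.End K N) (S : Submodule K N) (h : ∀ g, ∀ y ∈ S, ρ g y ∈ S) :
    H →* Module.End K (N ⧸ S) where
  toFun g := S.mapQ S (ρ g) fun y hy => h g y hy
  map_one' := by
    refine Submodule.linearMap_qext S (LinearMap.ext fun y => ?_)
    show S.mkQ (ρ 1 y) = S.mkQ y
    rw [map_one]
    rfl
  map_mul' g g' := by
    refine Submodule.linearMap_qext S (LinearMap.ext fun y => ?_)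
    show S.mkQ (ρ (g * g') y) = S.mkQ (ρ g (ρ g' y))
    rw [map_mul]
    rfl

theorem quoR_mkQ (S : Submodule K N) (h : ∀ g, ∀ y ∈ S, ρ g y ∈ S) (g : H) (y : N) :
    quoR ρ S h g (S.mkQ y) = S.mkQ (ρ g y) := rfl

theorem Tri.quo (hT : Tri Λ ρ) (S : Submodule K N) (h : ∀ g, ∀ y ∈ S, ρ g y ∈ S) :
    Tri Λ (quoR ρ S h) :=
  Tri.of_surj hT S.mkQ S.mkQ_surjective fun _ _ => rfl

end

/-- characters with values in `Λ` -/
theorem tri_ch {Λ : Subgroup Kˣ} {χ : H →* Kˣ} (h : ∀ g, χ g ∈ Λ) : Tri Λ (ch χ) := by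
  rw [tri_iff]
  refine ReflTransGen.single ⟨bot_le, χ, h, fun g y _ => ?_⟩
  show (χ g : K) • y - (χ g : K) • y ∈ _
  rw [sub_self]
  exact Submodule.zero_mem _

theorem tri_one {Λ : Subgroup Kˣ} : Tri Λ (1 : H →* Module.End K K) := by
  rw [tri_iff]
  refine ReflTransGen.single ⟨bot_le, 1, fun g => Λ.one_mem, fun g y _ => ?_⟩
  show y - ((1 : Kˣ) : K) • y ∈ _
  rw [Units.val_one, one_smul, sub_self]
  exact Submodule.zero_mem _

theorem sq_mem_sqr (χ : H →* Kˣ) (g : H) : χ g ^ 2 ∈ sqr χ :=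
  Subgroup.subset_closure ⟨g, rfl⟩

end Pool.Agent.S9.U
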